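import Mathlib
import Pool.Agent.Work.MP_bcfe2b_lc.Defs
import Pool.Agent.Work.MP_bcfe2b_lc.Main

set_option autoImplicit false

open Set Pool.Agent.Work.MP_bcfe2b_lc

/-- There is (in ZFC) an almost disjoint family on the remainder of `ℕ` whose cardinality is
two to the power aleph-one. -/
theorem Pool.Agent.Results.MP_bcfe2b_lc.FamilyOfSizeTwoPowAlephOne.result :
    ∃ 𝒜 : Set (Set NStar), IsAlmostDisjointFamily NStar 𝒜 ∧
      Cardinal.mk 𝒜 = 2 ^ Cardinal.aleph 1 := by
  classical
  have hle : Cardinal.continuum ≤ 2 ^ Cardinal.aleph 1 := by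
    rw [← Cardinal.two_power_aleph0]
    exact Cardinal.power_le_power_left two_ne_zero (Cardinal.aleph0_le_aleph 1)
  rcases hle.eq_or_lt with heq | hlt
  · -- the case where the continuum is already `2 ^ ℵ₁`
    have hinj : Function.Injective
        (fun x : ℕ → Bool => interior (closure (UA x))) := by
      intro x x' h
      by_contra hne
      have h1 := interior_closure_inter' (isOpen_UA x) (isOpen_UA x')
      rw [UA_disjoint hne] at h1
      simp only at h
      rw [← h, Set.inter_self, closure_empty, interior_empty] at h1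
      apply UA_not_compact x
      rw [← h1]
      exact isCompact_empty
    refine ⟨Set.range (fun x : ℕ → Bool => interior (closure (UA x))), ⟨?_, ?_⟩, ?_⟩
    · rintro _ ⟨x, rfl⟩
      exact ⟨reg_reg _, UA_not_compact x⟩
    · rintro _ ⟨x, rfl⟩ _ ⟨x', rfl⟩ hne
      have hxx : x ≠ x' := by
        rintro rfl
        exact hne rfl
      simp only
      rw [← interior_closure_inter' (isOpen_UA x) (isOpen_UA x'), UA_disjoint hxx,
        closure_empty, interior_empty]
      exact isCompact_empty
    · rw [Cardinal.mk_range_eq _ hinj, ← heq]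
      simp
  · -- the case `continuum < 2 ^ ℵ₁`
    let I : Type := (Cardinal.aleph 1).ord.ToType
    have hc : ∀ l : I, (Iio l).Countable := by
      intro l
      rw [Cardinal.countable_iff_lt_aleph_one]
      exact Cardinal.mk_Iio_toType_ord_lt l
    haveI : NoMaxOrder I := Cardinal.noMaxOrder (Cardinal.aleph0_le_aleph 1)
    have hmax : ∀ l : I, ∃ m, l < m := fun l => exists_gt l
    have hinj : Function.Injective (VV : (I → Bool) → Set NStar) := VV_injective hc hmax
    have hcard : Cardinal.mk (I → Bool) = 2 ^ Cardinal.aleph 1 := by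
      rw [← Cardinal.power_def, Cardinal.mk_bool]
      congr 1
      exact Cardinal.mk_ord_toType _
    haveI : Infinite (I → Bool) := by
      rw [Cardinal.infinite_iff, hcard]
      exact (Cardinal.aleph0_le_continuum).trans hle
    -- the branches with compact regularization
    let B : Set (I → Bool) := {f | IsCompact (VV f)}
    have hB : Cardinal.mk B ≤ Cardinal.continuum := by
      have hch : ∀ f : B, ∃ y : Set ℕ, VV f.1 = N y := fun f =>
        eq_N_of_isCompact isOpen_interior f.2
      choose y hy using hch
      have hyinj : Function.Injective y := by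
        intro f g hfg
        apply Subtype.ext
        apply hinj
        rw [hy f, hy g, hfg]
      have := Cardinal.mk_le_of_injective hyinj
      rwa [Cardinal.mk_set_nat] at this
    have hBc : Cardinal.mk (Bᶜ : Set (I → Bool)) = 2 ^ Cardinal.aleph 1 := by
      rw [← hcard]
      apply Cardinal.mk_compl_of_infinite
      rw [hcard]
      exact lt_of_le_of_lt hB hlt
    refine ⟨VV '' Bᶜ, ⟨?_, ?_⟩, ?_⟩
    · rintro _ ⟨f, hf, rfl⟩
      exact ⟨reg_reg _, hf⟩
    · rintro _ ⟨f, _, rfl⟩ _ ⟨g, _, rfl⟩ hne
      have hfg : f ≠ g := by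
        rintro rfl
        exact hne rfl
      obtain ⟨d, hd, hd'⟩ := exists_first_diff hfg
      rw [VV_inter hc hd hd']
      exact isCompact_N _
    · rw [Cardinal.mk_image_eq hinj, hBc]
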