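import Mathlib
import Pool.Agent.Work.MP_bcfe2b_lc.Defs
import Pool.Agent.Work.MP_bcfe2b_lc.Topo

set_option autoImplicit false

open Set Pool.Agent.Work.MP_bcfe2b_lc

namespace Pool.Agent.Results.MP_bcfe2b_lc.LargeFamilyGivesLongChain

/-- every at most `κ` clopen subsets of `U` lie in a single clopen subset of `U` -/
def Dir (κ : Cardinal.{0}) (U : Set NStar) : Prop :=
  ∀ J : Set (Set ℕ), (∀ x ∈ J, N x ⊆ U) → Cardinal.mk J ≤ κ →
    ∃ y, N y ⊆ U ∧ ∀ x ∈ J, N x ⊆ N y

lemma exists_bigger {κ : Cardinal.{0}} {U : Set NStar} (hU : IsOpen U) (hnc : ¬ IsCompact U)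
    (hd : Dir κ U) (J : Set (Set ℕ)) (hJ : ∀ x ∈ J, N x ⊆ U) (hJκ : Cardinal.mk J ≤ κ) :
    ∃ z, N z ⊆ U ∧ ∀ x ∈ J, N x ⊆ N z ∧ ¬ N z ⊆ N x := by
  obtain ⟨y, hy, hyJ⟩ := hd J hJ hJκ
  have hne : ¬ U ⊆ N y := by
    intro h
    apply hnc
    rw [Set.Subset.antisymm h hy]
    exact isCompact_N y
  obtain ⟨p, hpU, hpy⟩ := Set.not_subset.mp hne
  obtain ⟨x, hx1, hx2⟩ := exists_N_sub hU hpU
  refine ⟨y ∪ x, ?_, ?_⟩
  · rw [N_union]
    exact Set.union_subset hy hx2
  · intro w hw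
    constructor
    · rw [N_union]
      exact (hyJ w hw).trans Set.subset_union_left
    · intro hcon
      apply hpy
      apply hyJ w hw
      apply hcon
      rw [N_union]
      exact Or.inr hx1

lemma exists_chain {κ : Cardinal.{0}} {U : Set NStar} (hU : IsOpen U) (hnc : ¬ IsCompact U)
    (hd : Dir κ U) : ∃ y : (Order.succ κ).ord.ToType → Set ℕ,
      ∀ a b, a < b → (y a \ y b).Finite ∧ (y b \ y a).Infinite := by
  classical
  let T : Type := (Order.succ κ).ord.ToType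
  have hcard : ∀ a : T, Cardinal.mk (Iio a) ≤ κ := by
    intro a
    exact Order.lt_succ_iff.mp (Cardinal.mk_Iio_toType_ord_lt a)
  have hstep : ∀ (a : T) (prev : ∀ b : T, b < a → {y : Set ℕ // N y ⊆ U}),
      ∃ z : {y : Set ℕ // N y ⊆ U}, ∀ b (hb : b < a), N (prev b hb).1 ⊆ N z.1 ∧
        ¬ N z.1 ⊆ N (prev b hb).1 := by
    intro a prev
    let J : Set (Set ℕ) := range (fun b : Iio a => (prev b.1 b.2).1)
    have hJ : ∀ x ∈ J, N x ⊆ U := by
      rintro _ ⟨b, rfl⟩
      exact (prev b.1 b.2).2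
    have hJκ : Cardinal.mk J ≤ κ := Cardinal.mk_range_le.trans (hcard a)
    obtain ⟨z, hz1, hz2⟩ := exists_bigger hU hnc hd J hJ hJκ
    exact ⟨⟨z, hz1⟩, fun b hb => hz2 _ ⟨⟨b, hb⟩, rfl⟩⟩
  choose step hstep' using hstep
  let y : T → {y : Set ℕ // N y ⊆ U} := WellFounded.fix (wellFounded_lt (α := T)) step
  have hy : ∀ a : T, y a = step a (fun b _ => y b) := by
    intro a
    simp only [y]
    rw [WellFounded.fix_eq]
  refine ⟨fun a => (y a).1, ?_⟩
  intro a b hab
  have h := hstep' b (fun c _ => y c) a hab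
  rw [← hy b] at h
  rw [N_subset_iff, N_subset_iff] at h
  exact h

/-- If `κ` is an infinite cardinal, an almost disjoint family on the remainder of `ℕ` with more
than `2 ^ κ` members yields a strictly increasing (modulo finite sets) sequence of length `κ⁺`
of sets of natural numbers. -/
theorem result (κ : Cardinal.{0}) (hκ : Cardinal.aleph0 ≤ κ) (𝒜 : Set (Set NStar))
    (h𝒜 : IsAlmostDisjointFamily NStar 𝒜) (hcard : 2 ^ κ < Cardinal.mk 𝒜) :
    ∃ y : (Order.succ κ).ord.ToType → Set ℕ,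
      ∀ a b, a < b → (y a \ y b).Finite ∧ (y b \ y a).Infinite := by
  classical
  have hopen : ∀ U ∈ 𝒜, IsOpen U := by
    intro U hU
    rw [← (h𝒜.1 U hU).1]
    exact isOpen_interior
  by_cases hex : ∃ U ∈ 𝒜, Dir κ U
  · obtain ⟨U, hU, hd⟩ := hex
    exact exists_chain (hopen U hU) (h𝒜.1 U hU).2 hd
  · exfalso
    push Not at hex
    have hbad : ∀ U : 𝒜, ∃ J : Set (Set ℕ), (∀ x ∈ J, N x ⊆ U.1) ∧ Cardinal.mk J ≤ κ ∧
        ∀ y, N y ⊆ U.1 → ¬ ∀ x ∈ J, N x ⊆ N y := by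
      intro U
      have := hex U.1 U.2
      unfold Dir at this
      push Not at this
      obtain ⟨J, h1, h2, h3⟩ := this
      refine ⟨J, h1, h2, ?_⟩
      intro y hy hcon
      obtain ⟨x, hx, hx'⟩ := h3 y hy
      exact hx' (hcon x hx)
    choose J hJ1 hJ2 hJ3 using hbad
    have hinj : Function.Injective (fun U : 𝒜 => (⟨J U, hJ2 U⟩ : {t : Set (Set ℕ) // Cardinal.mk t ≤ κ})) := by
      intro U V hUV
      by_contra hne
      have hJJ : J U = J V := congrArg Subtype.val hUV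
      have hne' : U.1 ≠ V.1 := fun h => hne (Subtype.ext h)
      have hcomp := h𝒜.2 U.1 U.2 V.1 V.2 hne'
      obtain ⟨y, hy⟩ := eq_N_of_isCompact ((hopen _ U.2).inter (hopen _ V.2)) hcomp
      refine hJ3 U y ?_ ?_
      · rw [← hy]; exact Set.inter_subset_left
      · intro x hx
        rw [← hy]
        apply Set.subset_inter (hJ1 U x hx)
        apply hJ1 V x
        rw [← hJJ]
        exact hx
    have h1 := Cardinal.mk_le_of_injective hinj
    have h2 := Cardinal.mk_bounded_set_le (Set ℕ) κ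
    have h3 : max (Cardinal.mk (Set ℕ)) Cardinal.aleph0 ^ κ = 2 ^ κ := by
      rw [Cardinal.mk_set_nat, max_eq_left Cardinal.aleph0_le_continuum,
        ← Cardinal.two_power_aleph0, ← Cardinal.power_mul, Cardinal.aleph0_mul_eq hκ]
    rw [h3] at h2
    exact absurd (h1.trans h2) (not_le.mpr hcard)

end Pool.Agent.Results.MP_bcfe2b_lc.LargeFamilyGivesLongChain
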